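import Mathlib

set_option autoImplicit false

open Filter Topology Set
open scoped ENNReal

namespace Pool.Agent.Results.MP_2872ab_an.Yes

/-- Proper Lambda-sequences, indexed from 0 (so `l 0` is the first term). -/
def IsProper (l : ℕ → ℝ) : Prop :=
  (∀ i, 0 < l i) ∧ Monotone l ∧ ¬ Summable (fun i => 1 / l i) ∧ Tendsto l atTop atTop

/-- `|f(J)|` for the interval `J = [J.1, J.2]`. -/
def inc (f : ℝ → ℝ) (J : ℝ × ℝ) : ℝ := |f J.2 - f J.1|

/-- Families of non-overlapping closed subintervals of `[a, b]`, indexed so that `|f(I i)|` is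
non-increasing. One-point intervals are allowed, so finite families are included. -/
def Fam (a b : ℝ) (f : ℝ → ℝ) (I : ℕ → ℝ × ℝ) : Prop :=
  (∀ i, a ≤ (I i).1 ∧ (I i).1 ≤ (I i).2 ∧ (I i).2 ≤ b) ∧
    (Pairwise fun i j => Disjoint (Ioo (I i).1 (I i).2) (Ioo (I j).1 (I j).2)) ∧
    Antitone fun i => inc f (I i)

noncomputable def sig (l : ℕ → ℝ) (f : ℝ → ℝ) (I : ℕ → ℝ × ℝ) : ℝ≥0∞ :=
  ∑' i, ENNReal.ofReal (inc f (I i) / l i)

/-- The Lambda-variation. -/
noncomputable def V (l : ℕ → ℝ) (a b : ℝ) (f : ℝ → ℝ) : ℝ≥0∞ :=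
  ⨆ (I : ℕ → ℝ × ℝ) (_ : Fam a b f I), sig l f I

/-- The Wiener Lambda-variation: the limit as the mesh bound decreases to 0 of a monotone
function of the bound, that is, its infimum. -/
noncomputable def W (l : ℕ → ℝ) (a b : ℝ) (f : ℝ → ℝ) : ℝ≥0∞ :=
  ⨅ (d : ℝ) (_ : 0 < d),
    ⨆ (I : ℕ → ℝ × ℝ) (_ : Fam a b f I) (_ : ∀ i, (I i).2 - (I i).1 ≤ d), sig l f I

def BVc (l : ℕ → ℝ) (a b : ℝ) (f : ℝ → ℝ) : Prop :=
  V l a b f < ⊤ ∧ Tendsto (fun m => V (fun i => l (i + m)) a b f) atTop (𝓝 0)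

def AC (l : ℕ → ℝ) (a b : ℝ) (f : ℝ → ℝ) : Prop :=
  ContinuousOn f (Icc a b) ∧ BVc l a b f

def Singular (l : ℕ → ℝ) (a b : ℝ) (f : ℝ → ℝ) : Prop :=
  ContinuousOn f (Icc a b) ∧ V l a b f < ⊤ ∧ ¬ AC l a b f ∧ W l a b f = V l a b f

/-- The Shao-Sablin index. -/
noncomputable def S (l : ℕ → ℝ) : ℝ :=
  limsup (fun n => (∑ i ∈ Finset.range (2 * n), 1 / l i) / ∑ i ∈ Finset.range n, 1 / l i) atTop

theorem inc_nonneg (f : ℝ → ℝ) (J : ℝ × ℝ) : 0 ≤ inc f J := abs_nonneg _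

theorem le_V {l : ℕ → ℝ} {a b : ℝ} {f : ℝ → ℝ} {I : ℕ → ℝ × ℝ} (h : Fam a b f I) :
    sig l f I ≤ V l a b f := le_iSup₂_of_le (f := fun I (_ : Fam a b f I) => sig l f I) I h le_rfl

open Classical in
theorem enum {l : ℕ → ℝ} (l0 : ∀ i, 0 < l i) (lm : Monotone l) {η : ℝ} {x : ℕ → ℝ}
    (x0 : ∀ i, 0 ≤ x i) (xa : Antitone x) (hη : ∀ i, x i ≤ η) {p : ℕ → Prop}
    (inf : (setOf p).Infinite) :
    ∑' i, (if p i then ENNReal.ofReal (x i / l i) else 0) ≤ ENNReal.ofReal (η / l 0) +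
      ∑' k, ENNReal.ofReal (x (Nat.nth p k) / l (k + 1)) := by
  have em := Nat.nth_strictMono inf
  have ep := Nat.nth_mem_of_infinite inf
  have A := em.injective.tsum_eq (f := fun i => if p i then ENNReal.ofReal (x i / l i) else 0)
    (fun i hi => by
      rw [Nat.range_nth_of_infinite inf]
      by_contra q
      exact hi (if_neg q))
  rw [← A, tsum_eq_zero_add' ENNReal.summable]
  refine add_le_add ((if_pos (ep 0)).trans_le (ENNReal.ofReal_le_ofReal ?_))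
    (ENNReal.tsum_le_tsum fun k => (if_pos (ep _)).trans_le (ENNReal.ofReal_le_ofReal ?_))
  · exact div_le_div₀ ((x0 0).trans (hη 0)) (hη _) (l0 0) (lm (Nat.zero_le _))
  · exact div_le_div₀ (x0 _) (xa (em.monotone (Nat.le_succ _))) (l0 _) (lm (em.id_le (k + 1)))

theorem cons {l : ℕ → ℝ} {a b η : ℝ} {f : ℝ → ℝ} {I : ℕ → ℝ × ℝ} (h : Fam a b f I)
    (hη : ∀ i, inc f (I i) ≤ η) {J : ℝ × ℝ} (hJ : a ≤ J.1 ∧ J.1 ≤ J.2 ∧ J.2 ≤ b)
    (ηJ : η ≤ inc f J) {e : ℕ → ℕ} (em : StrictMono e)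
    (ep : ∀ k, Disjoint (Ioo J.1 J.2) (Ioo (I (e k)).1 (I (e k)).2)) :
    ENNReal.ofReal (inc f J / l 0) + ∑' k, ENNReal.ofReal (inc f (I (e k)) / l (k + 1)) ≤
      V l a b f := by
  obtain ⟨G, G0, G1⟩ : ∃ G : ℕ → ℝ × ℝ, G 0 = J ∧ ∀ k, G (k + 1) = I (e k) :=
    ⟨fun i => Nat.casesOn i J fun k => I (e k), rfl, fun _ => rfl⟩
  have F : Fam a b f G := by
    refine ⟨fun i => ?_, fun i j ij => ?_, antitone_nat_of_succ_le fun i => ?_⟩
    · cases i
      · rwa [G0]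
      · rw [G1]
        exact h.1 _
    · cases i <;> cases j
      · exact absurd rfl ij
      · rw [G0, G1]
        exact ep _
      · rw [G0, G1]
        exact (ep _).symm
      · rw [G1, G1]
        exact h.2.1 fun q => ij (by rw [em.injective q])
    · cases i
      · rw [G1, G0]
        exact (hη _).trans ηJ
      · rw [G1, G1]
        exact h.2.2 (em.monotone (Nat.le_succ _))
  have A := le_V (l := l) F
  rw [sig, tsum_eq_zero_add' ENNReal.summable] at A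
  simpa only [G0, G1] using A

open Classical in
theorem step {l : ℕ → ℝ} (l0 : ∀ i, 0 < l i) (lm : Monotone l) {a b η : ℝ} {f : ℝ → ℝ}
    {I : ℕ → ℝ × ℝ} (h : Fam a b f I) {n : ℕ} (hn : ∀ i, n ≤ i → (I i).1 = (I i).2)
    (hη : ∀ i, inc f (I i) ≤ η) {J : ℝ × ℝ} (hJ : a ≤ J.1 ∧ J.1 ≤ J.2 ∧ J.2 ≤ b)
    (ηJ : η ≤ inc f J) :
    ENNReal.ofReal (inc f J / l 0) + sig l f I ≤ V l a b f +
      ∑' i, (if J.1 ≤ (I i).1 ∧ (I i).1 < J.2 then ENNReal.ofReal (inc f (I i) / l i) else 0) +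
      2 * ENNReal.ofReal (η / l 0) := by
  obtain ⟨p, hp⟩ : ∃ p : ℕ → Prop, ∀ i, p i ↔ Disjoint (Ioo J.1 J.2) (Ioo (I i).1 (I i).2) :=
    ⟨_, fun _ => Iff.rfl⟩
  have inf : (setOf p).Infinite :=
    (Ici_infinite n).mono fun i hi => (hp i).2 (by rw [hn i hi, Ioo_self]; exact disjoint_empty _)
  have A := cons (l := l) h hη hJ ηJ (Nat.nth_strictMono inf)
    fun k => (hp _).1 (Nat.nth_mem_of_infinite inf k)
  have B := enum l0 lm (fun i => inc_nonneg f (I i)) h.2.2 hη inf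
  have tc : ∀ i, ENNReal.ofReal (inc f (I i) / l i) ≤ ENNReal.ofReal (η / l 0) := fun i =>
    ENNReal.ofReal_le_ofReal
      (div_le_div₀ ((inc_nonneg _ _).trans (hη 0)) (hη i) (l0 0) (lm (Nat.zero_le i)))
  rw [sig]
  generalize ∑' k, ENNReal.ofReal (inc f (I (Nat.nth p k)) / l (k + 1)) = R at A B
  generalize ENNReal.ofReal (η / l 0) = c at B tc ⊢
  obtain ⟨t, ht⟩ : ∃ t : ℕ → ℝ≥0∞, ∀ i, ENNReal.ofReal (inc f (I i) / l i) = t i := ⟨_, fun _ => rfl⟩
  simp only [ht] at B tc ⊢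
  have C : ∑' i, (if (I i).1 < J.1 ∧ J.1 < (I i).2 then t i else 0) ≤ c := by
    by_cases q : ∃ i, (I i).1 < J.1 ∧ J.1 < (I i).2
    · obtain ⟨i, q⟩ := q
      refine (tsum_eq_single i fun j ji => if_neg fun r => ?_).trans_le ((if_pos q).trans_le (tc i))
      exact Set.disjoint_left.1 (h.2.1 ji) (show J.1 ∈ Ioo _ _ from r) q
    · simp [fun i => if_neg (t := t i) (e := 0) (not_exists.1 q i)]
  have D : ∑' i, t i ≤ ∑' i, (if p i then t i else 0) +
      (∑' i, (if J.1 ≤ (I i).1 ∧ (I i).1 < J.2 then t i else 0) +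
        ∑' i, (if (I i).1 < J.1 ∧ J.1 < (I i).2 then t i else 0)) := by
    rw [← ENNReal.tsum_add, ← ENNReal.tsum_add]
    refine ENNReal.tsum_le_tsum fun i => ?_
    by_cases q : p i
    · rw [if_pos q]
      exact le_self_add
    obtain ⟨x, u, v⟩ := Set.not_disjoint_iff.1 (mt (hp i).2 q)
    rcases le_or_gt J.1 (I i).1 with r | r
    · rw [if_pos (⟨r, v.1.trans u.2⟩ : J.1 ≤ (I i).1 ∧ (I i).1 < J.2)]
      exact le_self_add.trans le_add_self
    · rw [if_pos (⟨r, u.1.trans v.2⟩ : (I i).1 < J.1 ∧ J.1 < (I i).2)]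
      exact le_add_self.trans le_add_self
  generalize ∑' i, (if J.1 ≤ (I i).1 ∧ (I i).1 < J.2 then t i else 0) = P at D ⊢
  calc _ ≤ ENNReal.ofReal (inc f J / l 0) + ((c + R) + (P + c)) :=
        add_le_add le_rfl (D.trans (add_le_add B (add_le_add le_rfl C)))
    _ = (ENNReal.ofReal (inc f J / l 0) + R) + P + 2 * c := by ring
    _ ≤ _ := add_le_add (add_le_add A le_rfl) le_rfl

theorem near {l : ℕ → ℝ} {a b d : ℝ} (ab : a ≤ b) {f : ℝ → ℝ} (d0 : 0 < d) {c : ℝ≥0∞} (c0 : c ≠ 0)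
    (hV : V l a b f < ⊤) (hW : W l a b f = V l a b f) :
    ∃ I n, Fam a b f I ∧ (∀ i, n ≤ i → (I i).1 = (I i).2) ∧ (∀ i, (I i).2 - (I i).1 ≤ d) ∧
      V l a b f ≤ sig l f I + c := by
  by_cases z : V l a b f = 0
  · exact ⟨fun _ => (a, a), 0, ⟨fun _ => ⟨le_rfl, le_rfl, ab⟩, fun _ _ _ => by simp,
      fun _ _ _ => le_rfl⟩, fun _ _ => rfl, fun _ => by simpa using d0.le, by simp [z]⟩
  have A := (ENNReal.sub_lt_self hV.ne z c0).trans_le (hW.ge.trans (iInf₂_le d d0))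
  simp only [lt_iSup_iff] at A
  obtain ⟨I, h, m, A⟩ := A
  rw [sig, ENNReal.tsum_eq_iSup_nat, lt_iSup_iff] at A
  obtain ⟨n, A⟩ := A
  refine ⟨fun i => if i < n then I i else (a, a), n, ⟨fun i => ?_, fun i j ij => ?_, fun i j ij => ?_⟩,
    fun i hi => by simp [hi.not_gt], fun i => ?_, ?_⟩
  · dsimp only
    split_ifs
    exacts [h.1 i, ⟨le_rfl, le_rfl, ab⟩]
  · dsimp only
    split_ifs
    exacts [h.2.1 ij, by simp, by simp, by simp]
  · dsimp only
    split_ifs with u v v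
    · exact h.2.2 ij
    · omega
    · simp [inc]
    · exact le_rfl
  · dsimp only
    split_ifs
    exacts [m i, by simpa using d0.le]
  · refine tsub_le_iff_right.1 (A.le.trans ?_)
    refine le_trans (Finset.sum_congr rfl fun i hi => ?_).le (ENNReal.sum_le_tsum (Finset.range n))
    simp only [if_pos (Finset.mem_range.1 hi)]

open Classical in
theorem bv {l : ℕ → ℝ} (l0 : ∀ i, 0 < l i) (lm : Monotone l) {a b : ℝ} {f : ℝ → ℝ}
    (fc : ContinuousOn f (Icc a b)) (hV : V l a b f < ⊤) (hW : W l a b f = V l a b f)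
    {K : ℕ → ℝ × ℝ} (hK : Fam a b f K) :
    ∑' j, ENNReal.ofReal (inc f (K j) / l 0) ≤ V l a b f := by
  have ab : a ≤ b := (hK.1 0).1.trans ((hK.1 0).2.1.trans (hK.1 0).2.2)
  rw [ENNReal.tsum_eq_iSup_nat]
  refine iSup_le fun M => ENNReal.le_of_forall_pos_le_add fun ε ε0 _ => ?_
  have := l0 0
  have η0 : 0 < ε / (3 * M + 1) * l 0 := by positivity
  set η : ℝ := ε / (3 * M + 1) * l 0 with hη
  set c := ENNReal.ofReal (η / l 0) with hc
  obtain ⟨d, d0, hd⟩ := Metric.uniformContinuousOn_iff_le.1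
    (isCompact_Icc.uniformContinuousOn_of_continuous fc) η η0
  obtain ⟨I, n, h, hn, m, A⟩ := near ab d0 (c := c) (by simp [hc]; positivity) hV hW
  have hI : ∀ i, inc f (I i) ≤ η := fun i => by
    obtain ⟨u, v, w⟩ := h.1 i
    refine hd _ ⟨u.trans v, w⟩ _ ⟨u, v.trans w⟩ ?_
    rw [Real.dist_eq, abs_of_nonneg (sub_nonneg.2 v)]
    exact m i
  set P : ℕ → ℝ≥0∞ := fun j => ∑' i, (if (K j).1 ≤ (I i).1 ∧ (I i).1 < (K j).2 then
    ENNReal.ofReal (inc f (I i) / l i) else 0) with hP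
  have B : ∀ j, ENNReal.ofReal (inc f (K j) / l 0) ≤ P j + 3 * c := fun j => by
    rcases le_total η (inc f (K j)) with q | q
    · have D := (step l0 lm h hn hI (hK.1 j) q).trans (add_le_add (add_le_add A le_rfl) le_rfl)
      refine (ENNReal.add_le_add_iff_right ((le_V h).trans_lt hV).ne).1 (D.trans_eq ?_)
      rw [hP]
      ring
    · refine (ENNReal.ofReal_le_ofReal (div_le_div_of_nonneg_right q this.le)).trans ?_
      exact (le_mul_of_one_le_left' (by norm_num)).trans le_add_self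
  have C : ∑ j ∈ Finset.range M, P j ≤ V l a b f := by
    rw [hP, ← Summable.tsum_finsetSum fun _ _ => ENNReal.summable]
    refine (ENNReal.tsum_le_tsum fun i => ?_).trans (le_V h)
    by_cases q : ∃ j, (K j).1 ≤ (I i).1 ∧ (I i).1 < (K j).2
    · obtain ⟨j, q⟩ := q
      refine (Finset.sum_le_sum (g := fun k => if k = j then ENNReal.ofReal (inc f (I i) / l i) else 0)
        fun k _ => ?_).trans ?_
      · by_cases r : k = j
        · rw [if_pos r]
          split_ifs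
          exacts [le_rfl, zero_le]
        refine (if_neg fun s => ?_).trans_le zero_le
        obtain ⟨x, u, v⟩ := exists_between (lt_min s.2 q.2)
        exact Set.disjoint_left.1 (hK.2.1 r) (show x ∈ Ioo _ _ from ⟨s.1.trans_lt u, v.trans_le (min_le_left _ _)⟩)
          ⟨q.1.trans_lt u, v.trans_le (min_le_right _ _)⟩
      · rw [Finset.sum_ite_eq']
        split_ifs
        exacts [le_rfl, zero_le]
    · simp [fun j => if_neg (t := ENNReal.ofReal (inc f (I i) / l i)) (e := 0) (not_exists.1 q j)]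
  refine (Finset.sum_le_sum fun j _ => B j).trans ?_
  rw [Finset.sum_add_distrib, Finset.sum_const, Finset.card_range, nsmul_eq_mul]
  refine add_le_add C ?_
  rw [hc, hη, mul_div_cancel_right₀ _ this.ne', ← ENNReal.ofReal_coe_nnreal, ← ENNReal.ofReal_ofNat 3,
    ← ENNReal.ofReal_natCast, ← ENNReal.ofReal_mul (by norm_num), ← ENNReal.ofReal_mul (by positivity)]
  refine ENNReal.ofReal_le_ofReal ?_
  rw [← mul_assoc, mul_div_assoc', div_le_iff₀ (by positivity)]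
  nlinarith [ε.coe_nonneg]

theorem not_singular {l : ℕ → ℝ} (hl : IsProper l) (a b : ℝ) (f : ℝ → ℝ) : ¬ Singular l a b f := by
  rintro ⟨fc, hV, nA, hW⟩
  obtain ⟨l0, lm, -, lt⟩ := hl
  refine nA ⟨fc, hV, ?_⟩
  have T : Tendsto (fun m => ENNReal.ofReal (l 0 / l m) * V l a b f) atTop (𝓝 0) := by
    simpa using ENNReal.Tendsto.mul_const
      (ENNReal.tendsto_ofReal (lt.const_div_atTop (l 0))) (Or.inr hV.ne)
  refine tendsto_of_tendsto_of_tendsto_of_le_of_le tendsto_const_nhds T (fun _ => zero_le)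
    fun m => iSup₂_le fun K hK => le_trans ?_ (mul_le_mul_right (bv l0 lm fc hV hW hK) _)
  rw [← ENNReal.tsum_mul_left]
  refine ENNReal.tsum_le_tsum fun j => ?_
  have := l0 0
  have := l0 m
  rw [← ENNReal.ofReal_mul (by positivity), div_mul_div_comm, mul_comm (l m), mul_div_mul_left _ _ (l0 0).ne']
  exact ENNReal.ofReal_le_ofReal (div_le_div_of_nonneg_left (inc_nonneg _ _) this (lm (Nat.le_add_left _ _)))

theorem result :
    (∀ (l : ℕ → ℝ) (a b : ℝ) (f : ℝ → ℝ), IsProper l → ¬ Singular l a b f) ∧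
    ∀ (l : ℕ → ℝ) (a b : ℝ), a < b → IsProper l → S l = 2 → (∃ g, Singular l a b g) →
      ∀ f, V l a b f < ⊤ → ∃ fs fac fj : ℝ → ℝ,
        (Singular l a b fs ∨ ∃ c, ∀ x ∈ Icc a b, fs x = c) ∧ AC l a b fac ∧ BVc l a b fj ∧
        (∀ x ∈ Icc a b, f x = fs x + fac x + fj x) ∧
        V l a b f = V l a b fs + V l a b fac + W l a b fj :=
  ⟨fun _ a b f h => not_singular h a b f,
    fun _ a b _ h _ ⟨g, hg⟩ => absurd hg (not_singular h a b g)⟩

end Pool.Agent.Results.MP_2872ab_an.Yes
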